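import Pool.Agent.Helper21.DN.Stmts

set_option autoImplicit false

namespace Pool.Agent.Helper21.DN

universe u

open Polynomial

theorem st_L1 (hVAL : ST_VAL.{u}) : ST_L1.{u} := by
  intro p hp k _ _ _ g hg
  set K := LaurentSeries k with hK
  have hCinj : Function.Injective (κ0 k) := (κ0 k).injective
  have hchK : CharP K p := charP_of_injective_ringHom hCinj p
  set q : ℕ := p ^ g with hq
  have hq1 : 1 < q := Nat.one_lt_pow (by omega) hp.out.one_lt
  set t1 : K := HahnSeries.single (-1) 1 with ht1
  set f : K[X] := X ^ q - X - C t1 with hf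
  have hfdeg : f.natDegree = q := by
    rw [hf]
    compute_degree!
    · rw [if_neg (by omega), if_neg (by omega)]
      simp
    · omega
  have hqK : ((q : ℕ) : K) = 0 := by
    rw [CharP.cast_eq_zero_iff K p]
    exact dvd_pow_self p (by omega)
  have hfsep : f.Separable := by
    rw [Polynomial.Separable]
    have hd : derivative f = -1 := by
      rw [hf]
      simp [derivative_X_pow, hqK]
    rw [hd]
    exact ⟨0, -1, by ring⟩
  have haev : ∀ (E : Type u) [Field E] [Algebra K E] (x : E),
      aeval x f = x ^ q - x - algebraMap K E t1 := by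
    intro E _ _ x
    rw [hf]
    simp only [map_sub, map_pow, aeval_X, aeval_C]
  set L := f.SplittingField with hL
  have hgal : IsGalois K L := IsGalois.of_separable_splitting_field hfsep
  have hsplit : (f.map (algebraMap K L)).Splits := SplittingField.splits f
  have hdeg0 : (f.map (algebraMap K L)).degree ≠ 0 := by
    rw [degree_map]
    intro h
    have : f.natDegree = 0 := natDegree_eq_of_degree_eq_some h
    omega
  obtain ⟨w, hw⟩ := hsplit.exists_eval_eq_zero hdeg0
  have hw1 : w ^ q - w = algebraMap K L t1 := by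
    rw [eval_map_algebraMap, haev L w] at hw
    exact sub_eq_zero.mp hw
  have hchL : CharP L p := charP_of_injective_ringHom (algebraMap K L).injective p
  -- constants
  have hroot : ∀ x : L, x ^ q - x = algebraMap K L t1 → ∃ c : k, c ^ q = c ∧
      x = w + algebraMap K L (κ0 k c) := by
    intro x hx
    have hd : (x - w) ^ q - (x - w) = 0 := by
      rw [hq, sub_pow_char_pow, ← hq]
      linear_combination hx - hw1
    set P : k[X] := X ^ q - X with hP
    have hP0 : P ≠ 0 := by
      rw [hP]
      exact FiniteField.X_pow_card_sub_X_ne_zero k hq1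
    have hPs : P.Splits := IsAlgClosed.splits P
    set i : k →+* L := (algebraMap K L).comp (κ0 k) with hi
    have hr : (P.map i).IsRoot (x - w) := by
      rw [IsRoot.def, hP]
      simp only [Polynomial.map_sub, Polynomial.map_pow, map_X, eval_sub, eval_pow, eval_X]
      exact hd
    obtain ⟨c, hc⟩ := hPs.mem_range_of_isRoot hP0 hr
    refine ⟨c, ?_, ?_⟩
    · apply i.injective
      rw [map_pow, hc]
      exact sub_eq_zero.mp hd
    · have : x - w = algebraMap K L (κ0 k c) := hc.symm
      rw [← this]; ring
  have hmap : ∀ σ : L ≃ₐ[K] L, (σ w) ^ q - σ w = algebraMap K L t1 := by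
    intro σ
    rw [← map_pow, ← map_sub, hw1, AlgEquiv.commutes]
  have htop : Algebra.adjoin K {w} = ⊤ := by
    have h1 := SplittingField.adjoin_rootSet f
    rw [eq_top_iff, ← h1, Algebra.adjoin_le_iff]
    intro x hx
    have hx1 : x ^ q - x = algebraMap K L t1 := by
      have h2 := (mem_rootSet.mp hx).2
      rw [haev L x] at h2
      exact sub_eq_zero.mp h2
    obtain ⟨c, -, hc⟩ := hroot x hx1
    rw [hc]
    exact Subalgebra.add_mem _ (Algebra.subset_adjoin rfl) (Subalgebra.algebraMap_mem _ _)
  have hext : ∀ σ τ : L ≃ₐ[K] L, σ w = τ w → σ = τ := by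
    intro σ τ h
    have h2 : (σ : L →ₐ[K] L) = (τ : L →ₐ[K] L) := by
      apply AlgHom.ext_of_adjoin_eq_top htop
      intro y hy
      rw [Set.mem_singleton_iff] at hy
      subst hy
      exact h
    ext y
    exact DFunLike.congr_fun h2 y
  have hσ : ∀ σ : L ≃ₐ[K] L, ∃ c : k, c ^ q = c ∧ σ w = w + algebraMap K L (κ0 k c) :=
    fun σ => hroot _ (hmap σ)
  refine ⟨L, inferInstance, inferInstance, w, inferInstance, hgal, hw1, hσ, ?_, hext⟩
  -- counting
  obtain ⟨v, hv, -⟩ := hVAL k L
  set n := Module.finrank K L with hn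
  have hn0 : 0 < n := Module.finrank_pos
  have hvt : v (algebraMap K L t1) = ((-(n : ℤ) : ℤ) : WithTop ℤ) := by
    rw [hv, val, Algebra.norm_algebraMap, ← hn]
    have h1 : ∀ j : ℕ, (t1 ^ j).orderTop = ((-(j : ℤ) : ℤ) : WithTop ℤ) := by
      intro j
      have h2 : t1 ^ j = HahnSeries.single (-(j : ℤ)) 1 := by
        rw [ht1, HahnSeries.single_pow]
        simp
      rw [h2, HahnSeries.orderTop_single one_ne_zero]
    exact h1 n
  have hvw : ∃ m : ℤ, v w = (m : WithTop ℤ) := by
    have h : v w ≠ ⊤ := by
      rw [Ne, AddValuation.top_iff]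
      rintro rfl
      rw [zero_pow (by omega), sub_zero] at hw1
      have h2 : t1 ≠ 0 := by
        rw [ht1]
        exact HahnSeries.single_ne_zero one_ne_zero
      exact h2 ((map_eq_zero _).mp hw1.symm)
    obtain ⟨m, hm⟩ := WithTop.ne_top_iff_exists.mp h
    exact ⟨m, hm.symm⟩
  obtain ⟨m, hm⟩ := hvw
  have hvq : v (w ^ q) = (((q : ℤ) * m : ℤ) : WithTop ℤ) := by
    rw [AddValuation.map_pow, hm, ← nsmul_eq_mul]
    norm_cast
  have hmneg : m < 0 := by
    by_contra hge
    have hge' : 0 ≤ m := by omega
    have h1 : (0 : WithTop ℤ) ≤ v (w ^ q - w) := by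
      refine le_trans (le_min ?_ ?_) (AddValuation.map_sub _ _ _)
      · rw [hvq]
        have : 0 ≤ (q : ℤ) * m := by positivity
        exact_mod_cast this
      · rw [hm]; exact_mod_cast hge'
    rw [hw1, hvt] at h1
    have h2 : (0 : ℤ) ≤ -(n : ℤ) := by exact_mod_cast h1
    omega
  have hlt : v (w ^ q) < v w := by
    rw [hvq, hm]
    have : (q : ℤ) * m < m := by
      have : (1 : ℤ) < q := by exact_mod_cast hq1
      nlinarith
    exact_mod_cast this
  have heq : v (w ^ q - w) = v (w ^ q) := by
    rw [sub_eq_add_neg]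
    apply AddValuation.map_add_eq_of_lt_left
    rw [AddValuation.map_neg]
    exact hlt
  rw [hw1, hvt, hvq] at heq
  have heq' : -(n : ℤ) = (q : ℤ) * m := by exact_mod_cast heq
  have hqn : q ≤ n := by
    have : (q : ℤ) ≤ n := by nlinarith
    exact_mod_cast this
  -- the set of the fixed constants
  set T : Set k := {c : k | c ^ q = c} with hT
  have hP0 : (X ^ q - X : k[X]) ≠ 0 := FiniteField.X_pow_card_sub_X_ne_zero k hq1
  have hTsub : T ⊆ ((X ^ q - X : k[X]).rootSet k) := by
    intro c hc
    rw [mem_rootSet]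
    refine ⟨hP0, ?_⟩
    simp only [map_sub, map_pow, aeval_X]
    exact sub_eq_zero.mpr hc
  have hTfin : T.Finite := (rootSet_finite _ _).subset hTsub
  have hTcard : T.ncard ≤ q := by
    calc T.ncard ≤ ((X ^ q - X : k[X]).rootSet k).ncard :=
          Set.ncard_le_ncard hTsub (rootSet_finite _ _)
      _ ≤ (X ^ q - X : k[X]).natDegree := by
          classical
          rw [rootSet, Set.ncard_coe_finset]
          refine le_trans (Multiset.toFinset_card_le _) ?_
          refine le_trans (card_roots' _) ?_
          exact natDegree_map_le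
      _ = q := FiniteField.X_pow_card_sub_X_natDegree_eq k hq1
  choose F hF1 hF2 using hσ
  have hFinj : Function.Injective F := by
    intro σ τ h
    apply hext
    rw [hF2, hF2, h]
  have hcardG : Nat.card (L ≃ₐ[K] L) = n := IsGalois.card_aut_eq_finrank K L
  have hrange : Set.range F ⊆ T := by
    rintro _ ⟨σ, rfl⟩
    exact hF1 σ
  have hcr : (Set.range F).ncard = n := by
    rw [← hcardG]
    exact Set.ncard_range_of_injective hFinj
  have hEq : Set.range F = T := by
    apply Set.eq_of_subset_of_ncard_le hrange _ hTfin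
    omega
  intro c hc
  have : c ∈ Set.range F := by
    rw [hEq]; exact hc
  obtain ⟨σ, hσ⟩ := this
  exact ⟨σ, by rw [hF2, hσ]⟩

end Pool.Agent.Helper21.DN
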