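import Pool.Agent.Helper21.DN.Stmts

set_option autoImplicit false

namespace Pool.Agent.Helper21.DN

universe u

section s1

variable {L : Type u} [Field L] (v : AddValuation L (WithTop ℤ)) (σ : L →+* L)

theorem s1_int (x : L) (hx : x ≠ 0) : ∃ n : ℤ, v x = (n : WithTop ℤ) := by
  have h : v x ≠ ⊤ := by
    rw [Ne, AddValuation.top_iff]
    exact hx
  obtain ⟨n, hn⟩ := WithTop.ne_top_iff_exists.mp h
  exact ⟨n, hn.symm⟩

/-- the elements that move by at least `i` -/
def s1_H (hv : ∀ x, v (σ x) = v x) (i : ℤ) : Subgroup Lˣ where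
  carrier := {x | v (x : L) + (i : WithTop ℤ) ≤ v (σ (x : L) - (x : L))}
  mul_mem' := by
    intro a b ha hb
    simp only [Set.mem_ofPred_eq, Units.val_mul, map_mul, AddValuation.map_mul] at ha hb ⊢
    have e : σ (a : L) * σ (b : L) - (a : L) * (b : L) =
      σ (a : L) * (σ (b : L) - b) + (σ (a : L) - a) * b := by ring
    rw [e]
    refine le_trans (le_min ?_ ?_) (AddValuation.map_add _ _ _)
    · rw [AddValuation.map_mul, hv, add_assoc]
      exact add_le_add le_rfl hb
    · rw [AddValuation.map_mul]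
      calc v (a : L) + v (b : L) + (i : WithTop ℤ) = (v (a : L) + (i : WithTop ℤ)) + v (b : L) := by
            abel
        _ ≤ _ := add_le_add ha le_rfl
  one_mem' := by
    simp
  inv_mem' := by
    intro a ha
    simp only [Set.mem_ofPred_eq, Units.val_inv_eq_inv_val, map_inv₀] at ha ⊢
    have ha0 : (a : L) ≠ 0 := a.ne_zero
    have hs0 : σ (a : L) ≠ 0 := by
      rw [Ne, map_eq_zero]
      exact ha0
    have e : σ (a : L) - (a : L) = -(((σ (a : L))⁻¹ - (a : L)⁻¹) * (a : L) * σ (a : L)) := by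
      field_simp
      ring
    obtain ⟨n, hn⟩ := s1_int v (a : L) ha0
    obtain ⟨n', hn'⟩ := s1_int v ((a : L)⁻¹) (inv_ne_zero ha0)
    have h0 : v ((a : L) * (a : L)⁻¹) = 0 := by
      rw [mul_inv_cancel₀ ha0, AddValuation.map_one]
    rw [AddValuation.map_mul, hn, hn'] at h0
    have h0' : n + n' = 0 := by exact_mod_cast h0
    rw [e, AddValuation.map_neg, AddValuation.map_mul, AddValuation.map_mul, hv, hn] at ha
    rw [hn']
    rcases eq_or_ne (v ((σ (a : L))⁻¹ - (a : L)⁻¹)) ⊤ with ht | ht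
    · rw [ht]; exact le_top
    · obtain ⟨m, hm⟩ := WithTop.ne_top_iff_exists.mp ht
      rw [← hm] at ha ⊢
      have ha' : n + i ≤ m + n + n := by exact_mod_cast ha
      have : n' + i ≤ m := by omega
      exact_mod_cast this

end s1

theorem st_S1 : ST_S1.{u} := by
  intro p hp k L _ _ _ κ v hT σ hσκ hσv hN hne
  obtain ⟨N, hN⟩ := hN
  obtain ⟨x0, hx0⟩ := hne
  obtain ⟨π, hπ⟩ := hT.unif
  have hp2 : 2 ≤ p := hp.out.two_le
  have : CharP L p := by
    exact charP_of_injective_ringHom κ.injective p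
  -- constants
  have hκv : ∀ c : k, 0 ≤ v (κ c) := by
    intro c
    by_cases hc : c = 0
    · rw [hc, map_zero, AddValuation.map_zero]; exact le_top
    · rw [hT.alg c hc]
  -- first step
  have h1 : ∀ x : L, v x + ((1 : ℤ) : WithTop ℤ) ≤ v (σ x - x) := by
    intro x
    by_cases hx : x = 0
    · subst hx
      have h2 : σ 0 - 0 = 0 := by rw [map_zero, sub_zero]
      rw [h2, AddValuation.map_zero]; exact le_top
    have hsx : σ x ≠ 0 := by
      rw [Ne, map_eq_zero]; exact hx
    obtain ⟨n, hn⟩ := s1_int v x hx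
    have hq : σ x / x ≠ 0 := div_ne_zero hsx hx
    have e0 : v (σ x / x) = 0 := by
      obtain ⟨m, hm⟩ := s1_int v _ hq
      have h2 : v (σ x / x * x) = v x := by
        rw [div_mul_cancel₀ _ hx, hσv]
      rw [AddValuation.map_mul, hm, hn] at h2
      have h3 : m + n = n := by exact_mod_cast h2
      have h4 : m = 0 := by omega
      rw [hm, h4]; rfl
    obtain ⟨c, hc⟩ := hT.const (σ x / x) (le_of_eq e0.symm)
    have hcx : v x + ((1 : ℤ) : WithTop ℤ) ≤ v (σ x - κ c * x) := by
      have e : σ x - κ c * x = (σ x / x - κ c) * x := by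
        field_simp
      rw [e, AddValuation.map_mul, add_comm (v x)]
      exact add_le_add hc le_rfl
    have hj : ∀ j : ℕ, v x + ((1 : ℤ) : WithTop ℤ) ≤ v (σ^[j] x - κ c ^ j * x) := by
      intro j
      induction j with
      | zero => simp
      | succ j ih =>
        have e : σ^[j + 1] x - κ c ^ (j + 1) * x =
            σ (σ^[j] x - κ c ^ j * x) + κ c ^ j * (σ x - κ c * x) := by
          rw [Function.iterate_succ_apply', map_sub, map_mul, map_pow, hσκ]
          ring
        rw [e]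
        refine le_trans (le_min ?_ ?_) (AddValuation.map_add _ _ _)
        · rw [hσv]; exact ih
        · rw [AddValuation.map_mul, ← map_pow]
          calc v x + ((1 : ℤ) : WithTop ℤ) ≤ v (σ x - κ c * x) := hcx
            _ = 0 + v (σ x - κ c * x) := by rw [zero_add]
            _ ≤ _ := add_le_add (hκv _) le_rfl
    have hlast := hj (p ^ N)
    rw [hN x] at hlast
    have hc1 : c ^ (p ^ N) = 1 := by
      by_contra hne1
      have hne2 : (1 : k) - c ^ (p ^ N) ≠ 0 := fun h => hne1 (sub_eq_zero.mp h).symm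
      have e : x - κ c ^ (p ^ N) * x = κ (1 - c ^ (p ^ N)) * x := by
        rw [map_sub, map_one, map_pow]; ring
      rw [e, AddValuation.map_mul, hT.alg _ hne2, zero_add, hn] at hlast
      have : n + 1 ≤ n := by exact_mod_cast hlast
      omega
    have hc2 : c = 1 := by
      have h2 : (c - 1) ^ (p ^ N) = 0 := by
        rw [sub_pow_char_pow, hc1, one_pow, sub_self]
      have h3 := pow_eq_zero_iff (pow_ne_zero N hp.out.ne_zero) |>.mp h2
      exact sub_eq_zero.mp h3
    rw [hc2, map_one, one_mul] at hcx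
    exact hcx
  set S : Set ℕ := {i : ℕ | ∀ x : L, v x + ((i : ℤ) : WithTop ℤ) ≤ v (σ x - x)} with hS
  have hsS : s v σ = sSup S := rfl
  have hS1 : 1 ∈ S := by
    rw [hS]
    intro x
    exact_mod_cast h1 x
  have hx00 : x0 ≠ 0 := by
    rintro rfl
    exact hx0 (map_zero σ)
  have hbdd : BddAbove S := by
    obtain ⟨n, hn⟩ := s1_int v x0 hx00
    obtain ⟨m, hm⟩ := s1_int v (σ x0 - x0) (sub_ne_zero.mpr hx0)
    refine ⟨(m - n).toNat, ?_⟩
    intro i hi
    have h2 := hi x0
    rw [hn, hm] at h2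
    have h3 : n + (i : ℤ) ≤ m := by exact_mod_cast h2
    omega
  have hmem : sSup S ∈ S := Nat.sSup_mem ⟨1, hS1⟩ hbdd
  have hge : 1 ≤ sSup S := le_csSup hbdd hS1
  rw [hsS]
  set t : ℕ := sSup S with ht
  refine ⟨hge, hmem, ?_⟩
  intro x m hm hpm
  have hx : x ≠ 0 := by
    rintro rfl
    rw [AddValuation.map_zero] at hm
    exact WithTop.top_ne_coe hm
  have hlow := hmem x
  rw [hm] at hlow
  by_contra hcon
  -- the element `x` moves by at least `t + 1`
  have hxH : v x + ((((t : ℤ) + 1 : ℤ)) : WithTop ℤ) ≤ v (σ x - x) := by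
    rcases eq_or_ne (v (σ x - x)) ⊤ with h | h
    · rw [h]; exact le_top
    · obtain ⟨r, hr⟩ := WithTop.ne_top_iff_exists.mp h
      rw [← hr] at hlow hcon
      have h4 : m + (t : ℤ) ≤ r := by exact_mod_cast hlow
      have h5 : r ≠ m + (t : ℤ) := by
        intro h6
        apply hcon
        rw [h6]
      rw [hm, ← hr]
      have h7 : m + ((t : ℤ) + 1) ≤ r := by omega
      exact_mod_cast h7
  have hπ0 : π ≠ 0 := by
    rintro rfl
    rw [AddValuation.map_zero] at hπ
    exact WithTop.top_ne_one hπ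
  set H := s1_H v σ hσv ((t : ℤ) + 1) with hH
  have hxmem : Units.mk0 x hx ∈ H := hxH
  have hπmem : (Units.mk0 π hπ0) ^ p ∈ H := by
    show v (((Units.mk0 π hπ0) ^ p : Lˣ) : L) + (((t : ℤ) + 1 : ℤ) : WithTop ℤ) ≤
      v (σ (((Units.mk0 π hπ0) ^ p : Lˣ) : L) - (((Units.mk0 π hπ0) ^ p : Lˣ) : L))
    have e9 : σ (π ^ p) - π ^ p = (σ π - π) ^ p := by
      rw [map_pow, ← sub_pow_char]
    rw [Units.val_pow_eq_pow_val, Units.val_mk0, e9, AddValuation.map_pow,
      AddValuation.map_pow, hπ]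
    have h2 := hmem π
    rw [hπ] at h2
    rcases eq_or_ne (v (σ π - π)) ⊤ with h | h
    · rw [h]
      have : p • (⊤ : WithTop ℤ) = ⊤ := by
        obtain ⟨q, hq⟩ : ∃ q, p = q + 1 := ⟨p - 1, by omega⟩
        rw [hq, succ_nsmul, WithTop.add_top]
      rw [this]; exact le_top
    · obtain ⟨r, hr⟩ := WithTop.ne_top_iff_exists.mp h
      rw [← hr] at h2 ⊢
      have h3 : 1 + (t : ℤ) ≤ r := by exact_mod_cast h2
      have h4 : (p : ℤ) * 1 + ((t : ℤ) + 1) ≤ (p : ℤ) * r := by
        have h5 : (2 : ℤ) ≤ p := by exact_mod_cast hp2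
        have h6 : (1 : ℤ) ≤ t := by exact_mod_cast hge
        nlinarith
      have e1 : p • (1 : WithTop ℤ) = (((p : ℤ) * 1 : ℤ) : WithTop ℤ) := by
        rw [← nsmul_eq_mul]
        norm_cast
      have e2 : p • (r : WithTop ℤ) = (((p : ℤ) * r : ℤ) : WithTop ℤ) := by
        rw [← nsmul_eq_mul]
        norm_cast
      rw [e1, e2]
      exact_mod_cast h4
  -- units
  have hunit : ∀ u : Lˣ, v (u : L) = 0 → u ∈ H := by
    intro u hu
    show v (u : L) + (((t : ℤ) + 1 : ℤ) : WithTop ℤ) ≤ v (σ (u : L) - (u : L))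
    obtain ⟨c, hc⟩ := hT.const (u : L) (le_of_eq hu.symm)
    have e : σ (u : L) - (u : L) = σ ((u : L) - κ c) - ((u : L) - κ c) := by
      rw [map_sub, hσκ]; ring
    rw [e, hu, zero_add]
    refine le_trans ?_ (hmem ((u : L) - κ c))
    have : (((t : ℤ) + 1 : ℤ) : WithTop ℤ) = 1 + ((t : ℤ) : WithTop ℤ) := by
      rw [add_comm]; norm_cast
    rw [this]
    exact add_le_add hc le_rfl
  -- everything
  have hcop : IsCoprime m (p : ℤ) := by
    have h2 : Prime (p : ℤ) := Nat.prime_iff_prime_int.mp hp.out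
    exact ((Prime.coprime_iff_not_dvd h2).mpr hpm).symm
  obtain ⟨a, b, hab⟩ := hcop
  have hall : ∀ z : Lˣ, z ∈ H := by
    intro z
    obtain ⟨n, hn⟩ := s1_int v (z : L) z.ne_zero
    -- valuation of zpow
    have hz : ∀ (y : Lˣ) (q : ℤ), v (y : L) = (q : WithTop ℤ) → ∀ j : ℤ,
        v ((y ^ j : Lˣ) : L) = ((j * q : ℤ) : WithTop ℤ) := by
      intro y q hq
      have hnat : ∀ j : ℕ, v ((y ^ j : Lˣ) : L) = (((j : ℤ) * q : ℤ) : WithTop ℤ) := by
        intro j
        induction j with
        | zero => simp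
        | succ j ih =>
          rw [pow_succ, Units.val_mul, AddValuation.map_mul, ih, hq]
          have : (((j + 1 : ℕ) : ℤ) * q : ℤ) = (j : ℤ) * q + q := by push_cast; ring
          rw [this]; norm_cast
      intro j
      rcases Int.eq_nat_or_neg j with ⟨l, rfl | rfl⟩
      · rw [zpow_natCast]; exact hnat l
      · have h3 := hnat l
        obtain ⟨w, hw⟩ := s1_int v ((y ^ (-(l : ℤ)) : Lˣ) : L) (Units.ne_zero _)
        have h4 : v (((y ^ (-(l : ℤ)) : Lˣ) : L) * ((y ^ l : Lˣ) : L)) = 0 := by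
          rw [← Units.val_mul, zpow_neg, zpow_natCast, inv_mul_cancel, Units.val_one,
            AddValuation.map_one]
        rw [AddValuation.map_mul, hw, h3] at h4
        have h5 : w + (l : ℤ) * q = 0 := by exact_mod_cast h4
        have h6 : w = -(l : ℤ) * q := by linarith
        rw [hw, h6]
    have hxz := hz (Units.mk0 x hx) m hm
    have hπp : v (((Units.mk0 π hπ0) ^ p : Lˣ) : L) = ((p : ℤ) : WithTop ℤ) := by
      have := hz (Units.mk0 π hπ0) 1 hπ (p : ℤ)
      rw [zpow_natCast, mul_one] at this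
      exact this
    have hπz := hz ((Units.mk0 π hπ0) ^ p) p hπp
    have hzn := hz z n hn
    set y : Lˣ := (Units.mk0 x hx) ^ (a * n) * ((Units.mk0 π hπ0) ^ p) ^ (b * n) with hy
    have hyH : y ∈ H := H.mul_mem (H.zpow_mem hxmem _) (H.zpow_mem hπmem _)
    have hyv : v (y : L) = (n : WithTop ℤ) := by
      rw [hy, Units.val_mul, AddValuation.map_mul, hxz, hπz]
      have : a * n * m + b * n * (p : ℤ) = n := by
        calc a * n * m + b * n * (p : ℤ) = (a * m + b * p) * n := by ring
          _ = n := by rw [hab, one_mul]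
      rw [← WithTop.coe_add, this]
    have hq : z * y⁻¹ ∈ H := by
      apply hunit
      obtain ⟨w, hw⟩ := s1_int v ((z * y⁻¹ : Lˣ) : L) (Units.ne_zero _)
      have h4 : v (((z * y⁻¹ : Lˣ) : L) * (y : L)) = v (z : L) := by
        rw [← Units.val_mul, inv_mul_cancel_right]
      rw [AddValuation.map_mul, hw, hyv, hn] at h4
      have h5 : w + n = n := by exact_mod_cast h4
      have h6 : w = 0 := by omega
      rw [hw, h6]; rfl
    have := H.mul_mem hq hyH
    rwa [inv_mul_cancel_right] at this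
  have hsucc : t + 1 ∈ S := by
    intro z
    by_cases hz0 : z = 0
    · subst hz0
      have h2 : σ 0 - 0 = 0 := by rw [map_zero, sub_zero]
      rw [h2, AddValuation.map_zero]; exact le_top
    · have := hall (Units.mk0 z hz0)
      have h2 : v z + (((t : ℤ) + 1 : ℤ) : WithTop ℤ) ≤ v (σ z - z) := this
      have e : (((t + 1 : ℕ) : ℤ)) = (t : ℤ) + 1 := by push_cast; ring
      rw [e]
      exact h2
  have := le_csSup hbdd hsucc
  omega

end Pool.Agent.Helper21.DN
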